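import Pool.Agent.V11237.LP.IntPair

set_option autoImplicit false

/-!
# The families `(2 q n) ^ 2 + 1` and `((2 n + 1) q) ^ 2 + 4`: almost primes at prime `q`, uniformly in `n`

For all `n` up to any fixed power of `N` and both families: in every interval `(u, u + Y]` with
`u + Y ≤ Y'`, `Y ≥ δ Y'`, `Y' ≥ N ^ θ`, the number of the PRIMES `q` for which the value has no prime factor
up to `N ^ (1 / r)` is the number which a uniform Bateman–Horn heuristic predicts, up to a factor `1 ± ε`,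
and the number of the integers `m` in `(q, q + T]` with `m` and the value at `m` both free of prime
factors up to `N ^ (1 / r)` is a Poisson variable of mean `T V`, over these primes `q`.
-/

namespace Pool.Agent.Results.MP_4b1228_nt.BothFamiliesUniform

open Polynomial Finset Filter
open Pool.Agent.V11237.LP Pool.Agent.V11237.LP.IntPair

/-- The family of Ankeny, Chowla and Hasse. -/
def fA (n m : ℕ) : ℤ := (2 * m * n) ^ 2 + 1

/-- The family of Lang. -/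
def fB (n m : ℕ) : ℤ := ((2 * n + 1) * m) ^ 2 + 4

/-- The quadratic polynomials `a ^ 2 X ^ 2 + b ^ 2` with `b = 1`, `a` even, or `b = 2`, `a` odd. -/
lemma adm_ab (a b : ℤ) (hab : (b = 1 ∧ Even a) ∨ (b = 2 ∧ Odd a)) (p : ℕ) (hp : p.Prime) :
    ∃ m : ℕ, ¬ p ∣ m ∧ ¬ (p : ℤ) ∣ a ^ 2 * (m : ℤ) ^ 2 + 0 * m + b ^ 2 := by
  have hpi : Prime (p : ℤ) := Nat.prime_iff_prime_int.1 hp
  rcases hp.eq_two_or_odd with h2 | h2
  · subst h2
    refine ⟨1, by norm_num, ?_⟩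
    rintro ⟨l, hl⟩
    push_cast at hl
    rcases hab with ⟨hb, k, hk⟩ | ⟨hb, k, hk⟩
    · rw [hb, hk] at hl
      have : (2 : ℤ) * (l - 2 * k ^ 2) = 1 := by linarith [show ((k + k) ^ 2 : ℤ) = 4 * k ^ 2 by ring]
      omega
    · rw [hb, hk] at hl
      have : (2 : ℤ) * (l - 2 * k ^ 2 - 2 * k - 2) = 1 := by
        linarith [show ((2 * k + 1) ^ 2 : ℤ) = 4 * k ^ 2 + 4 * k + 1 by ring]
      omega
  · by_cases h3 : p = 3
    · subst h3
      refine ⟨1, by norm_num, ?_⟩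
      intro hd
      have h4 : a % 3 = 0 ∨ a % 3 = 1 ∨ a % 3 = 2 := by omega
      have h5 := Int.emod_eq_zero_of_dvd hd
      push_cast at h5
      have h6 : b ^ 2 = 1 ∨ b ^ 2 = 4 := by
        rcases hab with ⟨hb, _⟩ | ⟨hb, _⟩
        · left; rw [hb]; norm_num
        · right; rw [hb]; norm_num
      rcases h6 with h6 | h6 <;> rw [h6] at h5 <;> rcases h4 with h4 | h4 | h4 <;>
        (simp only [one_pow, mul_one, zero_mul, add_zero] at h5
         rw [pow_two, Int.add_emod, Int.mul_emod, h4] at h5; norm_num at h5)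
    · by_contra hcon
      push Not at hcon
      have hp5 : 5 ≤ p := by
        have := hp.two_le
        by_contra hcon
        interval_cases p <;> simp_all
      have g1 := hcon 1 (fun h1 => by have := Nat.le_of_dvd one_pos h1; omega)
      have g2 := hcon 2 (fun h1 => by have := Nat.le_of_dvd two_pos h1; omega)
      have k1 : (p : ℤ) ∣ 3 * b ^ 2 := by
        have := dvd_sub (g1.mul_left 4) g2
        have e1 : (4 * (a ^ 2 * ((1 : ℕ) : ℤ) ^ 2 + 0 * ((1 : ℕ) : ℤ) + b ^ 2) -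
            (a ^ 2 * ((2 : ℕ) : ℤ) ^ 2 + 0 * ((2 : ℕ) : ℤ) + b ^ 2) : ℤ) = 3 * b ^ 2 := by
          push_cast
          ring
        rwa [e1] at this
      rcases hpi.dvd_or_dvd k1 with k2 | k2
      · have := Int.le_of_dvd three_pos k2
        omega
      · have k3 := hpi.dvd_of_dvd_pow k2
        rcases hab with ⟨hb, _⟩ | ⟨hb, _⟩
        · rw [hb] at k3
          have := Int.le_of_dvd one_pos k3
          omega
        · rw [hb] at k3
          have := Int.le_of_dvd two_pos k3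
          omega

/-- **Both families at prime `q`, uniformly in `n`**: for all large `r` and `N`, all `1 ≤ n ≤ N ^ E`, and
for `f` the function `m ↦ (2 m n) ^ 2 + 1` as well as the function `m ↦ ((2 n + 1) m) ^ 2 + 4`. -/
theorem result (E : ℕ) (θ δ : ℝ) (hθ : 0 < θ) (hδ : 0 < δ) (hδ1 : δ ≤ 1) (x₀ ε : ℝ) (hε : 0 < ε)
    (hε1 : ε ≤ 1) :
    ∃ r₀ : ℕ, 2 ≤ r₀ ∧ ∀ r : ℕ, r₀ ≤ r → ∃ N₀ : ℕ, ∀ N : ℕ, N₀ ≤ N → ∀ (n : ℕ) (f : ℕ → ℤ),
      1 ≤ n → n ≤ N ^ E → (f = fA n ∨ f = fB n) →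
      (∀ m : ℕ, m ≤ N → Good f N r m → (f m).natAbs.primeFactorsList.length ≤ (2 * E + 7) * r) ∧
      0 < V f N r ∧
      ∀ Y' : ℕ, (N : ℝ) ^ θ ≤ Y' → ∀ u Y : ℕ, δ * Y' ≤ Y → u + Y ≤ Y' →
        |((P f N r u Y).card : ℝ) * Real.log Y' - Y * (V f N r / U N r)| ≤
          ε * (Y * (V f N r / U N r)) ∧
        ∀ T : ℕ, T * V f N r ≤ x₀ → ∀ S : Finset ℕ,
        |(((P f N r u Y).filter (fun q => Next f N r T q ∈ S)).card : ℝ) -
          (P f N r u Y).card *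
            ∑ j ∈ S, Real.exp (-(T * V f N r)) * (T * V f N r) ^ j / j.factorial| ≤
          ε * (P f N r u Y).card := by
  obtain ⟨r0, hr0, h0⟩ := law 2 (2 * E + 4) (by norm_num) (by omega) θ δ hθ hδ hδ1 x₀ ε hε hε1
  refine ⟨r0, hr0, ?_⟩
  intro r hr
  obtain ⟨N0, hN0⟩ := h0 r hr
  refine ⟨max N0 2, ?_⟩
  intro N hN n f hn hnN hf
  have hN2 : 2 ≤ N := (le_max_right _ _).trans hN
  have hNz : (2 : ℤ) ≤ N := by exact_mod_cast hN2
  have hNE : (1 : ℤ) ≤ (N : ℤ) ^ E := one_le_pow₀ (by omega)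
  have hnz : (n : ℤ) ≤ (N : ℤ) ^ E := by exact_mod_cast hnN
  have hn1 : (1 : ℤ) ≤ n := by exact_mod_cast hn
  obtain ⟨a, b, hab, ha0, ha3, hfab⟩ : ∃ a b : ℤ, ((b = 1 ∧ Even a) ∨ (b = 2 ∧ Odd a)) ∧ 0 < a ∧
      a ≤ 3 * n ∧ ∀ m : ℕ, f m = a ^ 2 * (m : ℤ) ^ 2 + 0 * m + b ^ 2 := by
    rcases hf with hf | hf
    · refine ⟨2 * n, 1, Or.inl ⟨rfl, ⟨n, by ring⟩⟩, by omega, by omega, fun m => ?_⟩
      rw [hf]
      unfold fA
      ring
    · refine ⟨2 * n + 1, 2, Or.inr ⟨rfl, ⟨n, by ring⟩⟩, by omega, by omega, fun m => ?_⟩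
      rw [hf]
      unfold fB
      ring
  have hb : b = 1 ∨ b = 2 := by
    rcases hab with ⟨h, _⟩ | ⟨h, _⟩
    · exact Or.inl h
    · exact Or.inr h
  have e2 : (N : ℤ) ^ (2 * E + 4) = (N : ℤ) ^ E * (N : ℤ) ^ E * N ^ 4 := by
    rw [pow_add, two_mul, pow_add]
  have hN4 : (16 : ℤ) ≤ (N : ℤ) ^ 4 := by
    calc (16 : ℤ) = 2 ^ 4 := by norm_num
      _ ≤ (N : ℤ) ^ 4 := pow_le_pow_left₀ (by norm_num) hNz 4
  have hEE : (1 : ℤ) ≤ (N : ℤ) ^ E * (N : ℤ) ^ E := one_le_mul_of_one_le_of_one_le hNE hNE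
  have hA := adm_quad (a ^ 2) 0 (b ^ 2) (by positivity) ?_ ?_
    ((N : ℤ) ^ (2 * E + 4)) ?_ ?_ ?_ (adm_ab a b hab)
  · have key := hN0 N ((le_max_left _ _).trans hN) f
      (Pool.Agent.TH464.PW.quad (a ^ 2) 0 (b ^ 2)) (fun m => by
      rw [Pool.Agent.TH464.PW.quad_eval, hfab]) (by
      have e3 : (((N : ℤ) ^ (2 * E + 4) : ℤ) : ℝ) = (N : ℝ) ^ (2 * E + 4) := by push_cast; rfl
      rw [e3] at hA
      exact hA)
    obtain ⟨k1, k2, k3⟩ := key
    exact ⟨fun m hm hg => (k1 m hm hg).trans (le_of_eq (by ring)), k2, k3⟩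
  · rintro p hp ⟨d1, _, d3⟩
    have hpi : Prime (p : ℤ) := Nat.prime_iff_prime_int.1 hp
    have q1 := hpi.dvd_of_dvd_pow d1
    have q2 := hpi.dvd_of_dvd_pow d3
    rcases hab with ⟨h, _⟩ | ⟨h, ⟨k, hk⟩⟩
    · rw [h] at q2
      exact hpi.not_isUnit (isUnit_of_dvd_one q2)
    · rw [h] at q2
      have q3 := Int.le_of_dvd two_pos q2
      have q4 : p = 2 := by
        have := hp.two_le
        omega
      rw [q4, hk] at q1
      obtain ⟨l, hl⟩ := q1
      push_cast at hl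
      omega
  · rintro ⟨s, hs⟩
    have hb2 : 0 < b ^ 2 := by rcases hb with h | h <;> rw [h] <;> norm_num
    nlinarith [mul_self_nonneg s, mul_pos (mul_pos ha0 ha0) hb2]
  · rw [abs_of_nonneg (by positivity), e2, pow_two]
    have h1 : a ≤ 3 * (N : ℤ) ^ E := by linarith
    have h2 : a * a ≤ (3 * (N : ℤ) ^ E) * (3 * (N : ℤ) ^ E) := mul_le_mul h1 h1 ha0.le (by positivity)
    nlinarith
  · rw [abs_zero]
    positivity
  · rw [abs_of_nonneg (by positivity), e2]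
    have hb2 : b ^ 2 ≤ 4 := by rcases hb with h | h <;> rw [h] <;> norm_num
    nlinarith

end Pool.Agent.Results.MP_4b1228_nt.BothFamiliesUniform
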