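import Pool.Agent.H225.LF2
import Pool.Agent.V1153.SX.Poly

/-!
# The families `(2 q n)^2 + 1` and `((2 n + 1) q)^2 + 4`, uniformly in `n`, at `q` with restricted digits

Let `b ≥ 2` be a base.  Write `q = M + t` with an arbitrary base point `M ≤ b^{EK}` and let the digits of
`t < b^K` be restricted: the `i`-th digit belongs to a set `A i`, where the sets `A i` are arbitrary,
depend on the place `i < K`, and have the only property that the number `∏ |A i|` of these `q` is at
least `e^{-δK} b^K`, where the constant `δ > 0` does not depend on `b`.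

Let `1 ≤ n ≤ b^{EK}` be arbitrary and `f(q)` one of the two families.  The sieve product `V` of `q f(q)`
is at least `κ / K^3`; for at most `C V ∏ |A i|` of these `q` both `q` and `f(q)` are primes; and (if the
last digit can be chosen such that both are prime to `b`) for at least `κ V ∏ |A i|` of these `q` both
`q` and `f(q)` have at most `r` prime factors, all larger than `b^{K/r}`.  The constants do not depend on
`n`.
-/

set_option autoImplicit false

namespace Pool.Agent.Results.MP_4b1228_nt.RestrictedDigits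

open Finset Filter

/-- The number `(2 n q)^2 + 1` (for `s = 0`, Ankeny, Chowla, Hasse) or `((2 n + 1) q)^2 + 4` (for
`s = 1`, Lang). -/
def f (s : Fin 2) (n q : ℕ) : ℕ := if s = 0 then (2 * q * n) ^ 2 + 1 else ((2 * n + 1) * q) ^ 2 + 4

open Classical in
/-- The number of the `q` modulo `p` for which `p` divides `q f(q)`. -/
noncomputable def nu (s : Fin 2) (n p : ℕ) : ℕ :=
  ((range p).filter (fun q : ℕ => p ∣ q * f s n q)).card

/-- The product of `1 - nu p / p` over the primes `p ≤ x`. -/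
noncomputable def V (s : Fin 2) (n x : ℕ) : ℝ :=
  ∏ p ∈ (Icc 1 x).filter Nat.Prime, (1 - (nu s n p : ℝ) / p)

open Classical in
/-- The number of the `t < b ^ K`, whose `i`-th digit in base `b` belongs to `A i` for all `i < K`, such
that `M + t` belongs to `T`. -/
noncomputable def count (b K M : ℕ) (A : ℕ → Finset ℕ) (T : Set ℕ) : ℕ :=
  ((range (b ^ K)).filter (fun t => (∀ i < K, t / b ^ i % b ∈ A i) ∧ M + t ∈ T)).card

/-- The number of choices of the digits. -/
noncomputable def choices (K : ℕ) (A : ℕ → Finset ℕ) : ℝ := ∏ i ∈ range K, ((A i).card : ℝ)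

/-- `m` has at most `r` prime factors, counted with multiplicity, and all of them are larger than
`z ^ (1 / r)`. -/
def AlmostPrime (r z m : ℕ) : Prop :=
  (∀ p : ℕ, p.Prime → p ∣ m → z < p ^ r) ∧ m.primeFactorsList.length ≤ r

open Pool.Agent.Y816.PD (WG NA ND ND_sub NA_nonneg)

/-- `f = a ^ 2 q ^ 2 + c` -/
def ac (s : Fin 2) (n : ℕ) : ℕ × ℕ := if s = 0 then (2 * n, 1) else (2 * n + 1, 4)

lemma f_eq (s : Fin 2) (n q : ℕ) : f s n q = (ac s n).1 ^ 2 * q ^ 2 + (ac s n).2 := by
  unfold f ac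
  split_ifs
  · simp only []
    ring
  · simp only []
    ring

/-- the two forms at `q = M + t` -/
def F (s : Fin 2) (n M : ℕ) : Fin 2 → ℕ → ℤ :=
  ![fun t => ((M + t : ℕ) : ℤ), fun t => ((f s n (M + t) : ℕ) : ℤ)]

open Polynomial in
/-- the two polynomials -/
noncomputable def P (s : Fin 2) (n : ℕ) (M : ℤ) : Fin 2 → ℤ[X] :=
  ![X + C M, C (((ac s n).1 : ℤ) ^ 2) * (X + C M) ^ 2 + C ((ac s n).2 : ℤ)]

lemma eval_P (s : Fin 2) (n M : ℕ) (i : Fin 2) (t : ℕ) :
    (P s n M i).eval (t : ℤ) = F s n M i t := by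
  fin_cases i
  · simp [P, F, add_comm]
  · change (Polynomial.C (((ac s n).1 : ℤ) ^ 2) * (Polynomial.X + Polynomial.C (M : ℤ)) ^ 2 +
      Polynomial.C ((ac s n).2 : ℤ)).eval (t : ℤ) = ((f s n (M + t) : ℕ) : ℤ)
    rw [f_eq]
    simp
    exact Or.inl (congrArg (· ^ 2) (add_comm _ _))

lemma deg_P (s : Fin 2) (n : ℕ) (M : ℤ) (i : Fin 2) : (P s n M i).natDegree ≤ ![1, 2] i := by
  fin_cases i
  · change (Polynomial.X + Polynomial.C M : Polynomial ℤ).natDegree ≤ 1
    compute_degree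
  · change (Polynomial.C (((ac s n).1 : ℤ) ^ 2) * (Polynomial.X + Polynomial.C M) ^ 2 +
      Polynomial.C ((ac s n).2 : ℤ) : Polynomial ℤ).natDegree ≤ 2
    compute_degree

lemma prod_F (s : Fin 2) (n M t : ℕ) :
    ∏ i, F s n M i t = (((M + t) * f s n (M + t) : ℕ) : ℤ) := by
  rw [Fin.prod_univ_two, Nat.cast_mul]
  rfl

lemma f_mod (s : Fin 2) (n p q : ℕ) : f s n (q + p) ≡ f s n q [MOD p] := by
  have h : q + p ≡ q [MOD p] := by simp [Nat.ModEq]
  rw [f_eq, f_eq]
  exact ((h.pow 2).mul_left _).add_right _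

open Classical in
lemma card_eq (s : Fin 2) (n M : ℕ) (p : ℕ) :
    ((range p).filter (fun t : ℕ => (p : ℤ) ∣ ∏ i, F s n M i t)).card = nu s n p := by
  unfold nu
  rw [← Pool.Agent.H225.LF.card_shift (fun q : ℕ => p ∣ q * f s n q) p M (fun q => ?_)]
  · congr 1
    refine filter_congr fun t _ => ?_
    rw [prod_F]
    exact Int.natCast_dvd_natCast
  · have h : (q + p) * f s n (q + p) ≡ q * f s n q [MOD p] :=
      Nat.ModEq.mul (by simp [Nat.ModEq]) (f_mod s n p q)
    exact h.dvd_iff dvd_rfl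

open Classical in
/-- the roots of the two factors -/
lemma roots (s : Fin 2) (n : ℕ) {p : ℕ} (hp : p.Prime) :
    nu s n p ≤ 3 ∧ nu s n p < p := by
  have hpp := hp.two_le
  -- the case of small primes
  have hsmall : p = 2 ∨ p = 3 → ¬ p ∣ 1 * f s n 1 := by
    intro h
    rw [one_mul]
    rcases h with rfl | rfl
    · unfold f
      split_ifs
      · intro h
        have : (2 * 1 * n) ^ 2 = 2 * (2 * n ^ 2) := by ring
        omega
      · intro h
        have : ((2 * n + 1) * 1) ^ 2 = 2 * (2 * n ^ 2 + 2 * n) + 1 := by ring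
        omega
    · rw [f_eq, one_pow, mul_one]
      intro h
      have h1 : ((ac s n).1 ^ 2 + (ac s n).2) % 3 = 0 := Nat.mod_eq_zero_of_dvd h
      have h2 : (ac s n).2 = 1 ∨ (ac s n).2 = 4 := by
        unfold ac
        split_ifs
        · left; rfl
        · right; rfl
      rw [Nat.add_mod, Nat.pow_mod] at h1
      have h3 : (ac s n).1 % 3 < 3 := Nat.mod_lt _ (by norm_num)
      generalize (ac s n).1 % 3 = z at *
      interval_cases z <;> rcases h2 with h2 | h2 <;> rw [h2] at h1 <;> norm_num at h1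
  -- the root `0` and at most two more
  have hle : nu s n p ≤ 1 + ((range p).filter (fun q : ℕ => p ∣ f s n q)).card := by
    have h1 : (range p).filter (fun q : ℕ => p ∣ q * f s n q) ⊆
        {0} ∪ (range p).filter (fun q : ℕ => p ∣ f s n q) := by
      intro q hq
      rw [mem_filter, mem_range] at hq
      rw [mem_union, mem_singleton, mem_filter, mem_range]
      rcases (Nat.Prime.dvd_mul hp).1 hq.2 with h | h
      · left
        exact Nat.eq_zero_of_dvd_of_lt h hq.1
      · right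
        exact ⟨hq.1, h⟩
    unfold nu
    refine (card_le_card h1).trans ((card_union_le _ _).trans ?_)
    rw [card_singleton]
  have hq2 : 3 ≤ p → ((range p).filter (fun q : ℕ => p ∣ f s n q)).card ≤ 2 := by
    intro h3
    have h0 : ¬ (p : ℤ) ∣ (P s n 0 1).eval 0 := by
      have e := eval_P s n 0 1 0
      have e1 : F s n 0 1 0 = ((ac s n).2 : ℤ) := by
        change ((f s n (0 + 0) : ℕ) : ℤ) = _
        rw [f_eq]
        simp
      rw [e1] at e
      have e2 : (P s n 0 1).eval 0 = ((ac s n).2 : ℤ) := by simpa using e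
      rw [e2]
      intro hd
      have hd' : p ∣ (ac s n).2 := by exact_mod_cast hd
      have h2 : (ac s n).2 ∣ 2 * 2 := by
        unfold ac
        split_ifs
        · exact one_dvd _
        · exact dvd_rfl
      rcases (Nat.Prime.dvd_mul hp).1 (hd'.trans h2) with h | h <;>
      · have := Nat.le_of_dvd (by norm_num) h
        omega
    have h1 := Pool.Agent.V1153.SX.card_roots_mod (P s n 0 1) p hp 0 h0
    refine le_trans ?_ (h1.trans (deg_P s n 0 1))
    refine card_le_card fun q hq => ?_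
    rw [mem_filter] at hq ⊢
    have e := eval_P s n 0 1 q
    have e1 : F s n 0 1 q = ((f s n q : ℕ) : ℤ) := by
      change ((f s n (0 + q) : ℕ) : ℤ) = _
      rw [zero_add]
    rw [e1] at e
    have e2 : (P s n 0 1).eval (q : ℤ) = ((f s n q : ℕ) : ℤ) := by simpa using e
    rw [e2]
    exact ⟨hq.1, Int.natCast_dvd_natCast.2 hq.2⟩
  have hlt : (p = 2 ∨ p = 3) → nu s n p < p := by
    intro h
    have h1 : (1 : ℕ) ∉ (range p).filter (fun q : ℕ => p ∣ q * f s n q) := by
      rw [mem_filter]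
      exact fun h2 => hsmall h h2.2
    unfold nu
    refine lt_of_lt_of_eq (card_lt_card ?_) (card_range p)
    rw [filter_ssubset]
    exact ⟨1, mem_range.2 (by omega), hsmall h⟩
  by_cases h5 : p < 5
  · have hcase : p = 2 ∨ p = 3 := by
      interval_cases p
      · left; rfl
      · right; rfl
      · exact absurd hp (by norm_num)
    have h6 := hlt hcase
    omega
  · have := hq2 (by omega)
    omega

lemma adm (s : Fin 2) (n M : ℕ) {p : ℕ} (hp : p.Prime) :
    ∃ t : ℕ, ∀ i, ¬ (p : ℤ) ∣ F s n M i t := by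
  classical
  have h1 := (roots s n hp).2
  rw [← card_eq s n M p] at h1
  have h2 : ((range p).filter (fun t : ℕ => (p : ℤ) ∣ ∏ i, F s n M i t)).card < (range p).card := by
    rwa [card_range]
  obtain ⟨t, ht, ht'⟩ := exists_mem_notMem_of_card_lt_card h2
  exact ⟨t, fun i hi => ht' (mem_filter.2 ⟨ht, hi.trans (dvd_prod_of_mem _ (mem_univ i))⟩)⟩

lemma WG_eq (s : Fin 2) (n M x : ℕ) : WG (fun t => ∏ i, F s n M i t) x = V s n x := by
  classical
  unfold WG V
  refine prod_congr rfl fun p _ => ?_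
  rw [← card_eq s n M p]

/-- **The two families of primes, uniformly in `n`, at `q` with restricted digits.** -/
theorem result (E : ℕ) :
    ∃ δ : ℝ, 0 < δ ∧ ∃ r₀ : ℕ, 2 ≤ r₀ ∧ ∀ r : ℕ, r₀ ≤ r → ∀ b : ℕ, 2 ≤ b →
      ∃ κ C : ℝ, 0 < κ ∧ 0 < C ∧ ∀ᶠ K : ℕ in atTop, ∀ s : Fin 2, ∀ n M : ℕ, 1 ≤ n →
        n ≤ b ^ (E * K) → M ≤ b ^ (E * K) →
        ∀ A : ℕ → Finset ℕ, (∀ i < K, A i ⊆ range b) →
        (b : ℝ) ^ K ≤ Real.exp (δ * K) * choices K A →
        κ / (K : ℝ) ^ 3 ≤ V s n (b ^ K) ∧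
        ((∃ e ∈ A 0, (M + e).Coprime b ∧ (f s n (M + e)).Coprime b) → (∃ e ∈ A (K - 1), e ≠ 0) →
          κ * choices K A * V s n (b ^ K) ≤ count b K M A {q | b ^ (K - 1) ≤ q ∧
            AlmostPrime r (b ^ K) q ∧ AlmostPrime r (b ^ K) (f s n q)}) ∧
        (count b K M A {q | q.Prime ∧ (f s n q).Prime} : ℝ) ≤ C * choices K A * V s n (b ^ K) := by
  classical
  obtain ⟨δ, hδ, r₀, hr₀, h⟩ := Pool.Agent.H225.DG.gen 2 2 (4 * E + 8) (by norm_num) (by norm_num)
  refine ⟨δ, hδ, r₀, hr₀, fun r hr b hb => ?_⟩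
  obtain ⟨κ, C, hκ, hC, h1⟩ := h r hr b hb
  obtain ⟨v, hv, hW⟩ := Pool.Agent.H225.VL.lower 3 b (by norm_num) hb
  refine ⟨min κ v, C, lt_min hκ hv, hC, ?_⟩
  filter_upwards [h1, hW, eventually_ge_atTop 2] with K hK hWK hK2 s n M hn1 hn hM A hA hprod
  have hbK : 4 ≤ b ^ K := by
    calc 4 = 2 ^ 2 := by norm_num
      _ ≤ 2 ^ K := Nat.pow_le_pow_right (by norm_num) hK2
      _ ≤ b ^ K := Nat.pow_le_pow_left hb K
  have hE1 : 1 ≤ b ^ (E * K) := Nat.one_le_pow _ _ (by omega)
  have hf : ∀ q, f s n q ≤ ((2 * n + 1) * q + 2) ^ 2 := by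
    intro q
    unfold f
    split_ifs
    · nlinarith [Nat.zero_le (n * q), Nat.zero_le q, Nat.zero_le (n * q * q),
        Nat.zero_le ((n * q) * (n * q))]
    · nlinarith [Nat.zero_le ((2 * n + 1) * q)]
  have hfq : ∀ q, q ≤ f s n q := by
    intro q
    unfold f
    split_ifs
    · have h2 : q ≤ 2 * q * n := by nlinarith
      nlinarith
    · have h2 : q ≤ (2 * n + 1) * q := by nlinarith
      nlinarith
  have hsize : ∀ t : ℕ, t < b ^ K → ∀ i, (F s n M i t).natAbs ≤ b ^ ((4 * E + 8) * K) := by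
    intro t ht i
    have e : b ^ ((4 * E + 8) * K) = ((b ^ (E * K) * b ^ K * b ^ K) * (b ^ (E * K) * b ^ K * b ^ K)) ^ 2
        := by
      rw [← pow_add, ← pow_add, ← pow_add, ← pow_mul]
      congr 1
      ring
    rw [e]
    obtain ⟨X, hX⟩ : ∃ X, X = b ^ (E * K) := ⟨_, rfl⟩
    obtain ⟨Y, hY⟩ : ∃ Y, Y = b ^ K := ⟨_, rfl⟩
    rw [← hX] at hn hM hE1 ⊢
    rw [← hY] at ht hbK ⊢
    have h2 : M + t ≤ X * Y := by
      obtain ⟨x, rfl⟩ := Nat.exists_eq_add_of_le hE1
      obtain ⟨y, rfl⟩ := Nat.exists_eq_add_of_le hbK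
      nlinarith [Nat.zero_le (x * y)]
    have h3 : 2 * n + 1 ≤ X * Y := by
      obtain ⟨x, rfl⟩ := Nat.exists_eq_add_of_le hE1
      obtain ⟨y, rfl⟩ := Nat.exists_eq_add_of_le hbK
      nlinarith [Nat.zero_le (x * y)]
    have h4 : (2 * n + 1) * (M + t) ≤ (X * Y) * (X * Y) := Nat.mul_le_mul h3 h2
    have h5 : (2 * n + 1) * (M + t) + 2 ≤ (X * Y * Y) * (X * Y * Y) := by
      have h6 : 1 ≤ X * Y := Nat.mul_pos (by omega) (by omega)
      have h7 : 1 ≤ (X * Y) * (X * Y) := Nat.mul_pos h6 h6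
      have h8 : (X * Y * Y) * (X * Y * Y) = ((X * Y) * (X * Y)) * (Y * Y) := by ring
      have h9 : 16 ≤ Y * Y := Nat.mul_le_mul hbK hbK
      have h10 : ((X * Y) * (X * Y)) * 16 ≤ ((X * Y) * (X * Y)) * (Y * Y) :=
        Nat.mul_le_mul_left _ h9
      rw [h8]
      omega
    have h11 : f s n (M + t) ≤ ((X * Y * Y) * (X * Y * Y)) ^ 2 :=
      (hf _).trans (Nat.pow_le_pow_left h5 2)
    fin_cases i
    · change ((M + t : ℕ) : ℤ).natAbs ≤ _
      rw [Int.natAbs_natCast]
      exact (hfq _).trans h11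
    · change ((f s n (M + t) : ℕ) : ℤ).natAbs ≤ _
      rw [Int.natAbs_natCast]
      exact h11
  obtain ⟨h2, h3⟩ := hK (F s n M) (fun i => ⟨P s n M i, (deg_P _ _ _ i).trans (by
      fin_cases i <;> decide), fun t => eval_P _ _ _ i t⟩) (fun p hp => adm s n M hp)
    hsize A hA hprod
  rw [WG_eq] at h2 h3
  have hVlow : v / (K : ℝ) ^ 3 ≤ V s n (b ^ K) := by
    rw [← WG_eq s n M]
    exact hWK _ (fun p hp => by
        have h5 := (roots s n hp).1
        rw [← card_eq s n M p] at h5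
        convert h5)
      (fun p hp => by
        have h5 := (roots s n hp).2
        rw [← card_eq s n M p] at h5
        convert h5)
  have hNA : 0 ≤ choices K A := NA_nonneg K A
  have hV0 : 0 ≤ V s n (b ^ K) := le_trans (by positivity) hVlow
  refine ⟨le_trans ?_ hVlow, ?_, ?_⟩
  · exact div_le_div_of_nonneg_right (min_le_right _ _) (by positivity)
  · rintro ⟨e, he, hc1, hc2⟩ htop
    refine le_trans (mul_le_mul_of_nonneg_right (mul_le_mul_of_nonneg_right (min_le_left _ _) hNA)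
      hV0) ((h2 ⟨e, he, fun i => ?_⟩ htop).trans (Nat.cast_le.2 (ND_sub fun t ht ht1 ht2 =>
        ⟨ht1, ?_⟩)))
    · fin_cases i
      · change ((M + e : ℕ) : ℤ).natAbs.Coprime b
        rw [Int.natAbs_natCast]
        exact hc1
      · change ((f s n (M + e) : ℕ) : ℤ).natAbs.Coprime b
        rw [Int.natAbs_natCast]
        exact hc2
    · have g0 := ht2.2 0
      have g1 := ht2.2 1
      change AlmostPrime r (b ^ K) ((M + t : ℕ) : ℤ).natAbs at g0
      change AlmostPrime r (b ^ K) ((f s n (M + t) : ℕ) : ℤ).natAbs at g1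
      rw [Int.natAbs_natCast] at g0 g1
      exact ⟨ht2.1.trans (Nat.le_add_left _ _), g0, g1⟩
  · refine le_trans (Nat.cast_le.2 ?_) h3
    refine ND_sub fun t ht ht1 ht2 => ⟨ht1, ?_⟩
    have hr2 : 2 ≤ r := hr₀.trans hr
    have hlt : ∀ x : ℕ, x.Prime → t ≤ x → t < x ^ r := fun x hx h8 => by
      have h9 : x ^ 2 ≤ x ^ r := Nat.pow_le_pow_right hx.pos hr2
      have := hx.two_le
      nlinarith
    intro i
    fin_cases i
    · change ((M + t : ℕ) : ℤ).natAbs.Prime ∧ t < ((M + t : ℕ) : ℤ).natAbs ^ r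
      rw [Int.natAbs_natCast]
      exact ⟨ht2.1, hlt _ ht2.1 (Nat.le_add_left _ _)⟩
    · change ((f s n (M + t) : ℕ) : ℤ).natAbs.Prime ∧ t < ((f s n (M + t) : ℕ) : ℤ).natAbs ^ r
      rw [Int.natAbs_natCast]
      exact ⟨ht2.2, hlt _ ht2.2 ((Nat.le_add_left _ _).trans (hfq _))⟩

end Pool.Agent.Results.MP_4b1228_nt.RestrictedDigits
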