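import Pool.Agent.V11296.EB2
import Pool.Agent.V11296.CX6

/-!
The squarefree values of `(2 q a)^2 + 1`, `q` a prime (the family of Ankeny, Chowla and Hasse), `a` in an
arithmetic progression: exact densities, and many examples, of the patterns formed by the numbers of the
prime factors of `d` and `d'` modulo `k`, where `(2 q a)^2 + 1 = d d'`, and the parities of the numbers of
the prime factors of `(2 q a)^2 + 1` in the residue classes modulo `m`. The pattern of a prime value is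
one of them.

The starting file `SquarefreeResidues` of this problem has the numbers of prime factors modulo `k`
(`m = 1`), with the exponent `2 log 2` in the place of `log 2`. The cancellation theorem for
`g₁(d) g₂(d')` (`W251.EG.tsG`), the criterion for aperiodicity `W251.EG.apdE`, the lower bound for the
number of squarefree values `W251.EG.sps9` and the passage from the pairs to the integers
`TH890.DV.cnt_core` used here are those of the starting files. Our `SquarefreePatternDensities`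
(problem MP_8be758_nt) is about `n^2 + n + A`.
-/

set_option autoImplicit false

namespace Pool.Agent.Results.MP_4b1228_nt.SquarefreeClassPatterns

open Finset Filter

open scoped Classical in
/-- the set of the positive integers `X` with `P X` has logarithmic density `0` -/
def LogNull (P : ℕ → Prop) : Prop :=
  Tendsto (fun Z : ℕ => (∑ X ∈ (Icc 1 Z).filter P, 1 / (X : ℝ)) / Real.log Z) atTop (nhds 0)

open scoped Classical in
/-- the number of the prime factors of `N` in a residue class modulo `m`, counted with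
multiplicity -/
noncomputable def factorsIn (m N : ℕ) (b : ZMod m) : ℕ :=
  N.primeFactorsList.countP (fun p : ℕ => (p : ZMod m) = b)

open scoped Classical in
/-- the set of the residue classes modulo `m`, prime to `m`, which contain an odd number of the
prime factors of `N`, counted with multiplicity -/
noncomputable def oddClasses (m : ℕ) [NeZero m] (N : ℕ) : Finset (ZMod m)ˣ :=
  univ.filter (fun b => Odd (factorsIn m N b))

/-- the number of the prime factors of `d` (with multiplicity) is `≡ i mod k`, that of `d'` is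
`≡ j mod k`, and `T` is the set of the classes modulo `m`, prime to `m`, which contain an odd number
of the prime factors of `d d'` -/
def PairPattern (m k i j : ℕ) [NeZero m] (T : Finset (ZMod m)ˣ) (d d' : ℕ) : Prop :=
  d.primeFactorsList.length ≡ i [MOD k] ∧ d'.primeFactorsList.length ≡ j [MOD k] ∧
    oddClasses m (d * d') = T

/-- `b` is the residue class of a value `x^2+y^2` prime to `m` -/
def IsNorm (m : ℕ) (b : ZMod m) : Prop := ∃ x y : ℤ,
  IsCoprime (x ^ 2 + y ^ 2) (m : ℤ) ∧ ((x ^ 2 + y ^ 2 : ℤ) : ZMod m) = b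

/-- `T` consists of classes of norms, `|T| ≡ i + j mod 2` if `k` is even, and
`z ≡ s^2 ∏_{b ∈ T} b mod m` for the class `s` of a norm -/
def Admissible (m k z i j : ℕ) (T : Finset (ZMod m)ˣ) : Prop :=
  (∀ b ∈ T, IsNorm m b) ∧ (2 ∣ k → T.card ≡ i + j [MOD 2]) ∧
  ∃ s : ZMod m, IsNorm m s ∧ (z : ZMod m) = s ^ 2 * ∏ b ∈ T, (b : ZMod m)

open scoped Classical in
/-- the number `R` of the admissible triples `(i, j, T)`, `0 ≤ i, j < k` -/
noncomputable def triples (m k z : ℕ) [NeZero m] : ℕ :=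
  ((range k ×ˢ range k ×ˢ (univ : Finset (Finset (ZMod m)ˣ))).filter
    (fun x => Admissible m k z x.1 x.2.1 x.2.2)).card

open scoped Classical in
/-- the pairs `(d, d')` of positive integers with `s₁ X < d ≤ s₂ X`, `s₃ X < d' ≤ s₄ X`,
`d ≡ r mod 2 q w` and `d d' = (2 q a)^2 + 1` squarefree for some `a > 0`, `a ≡ v mod w` -/
noncomputable def pairs (q w v r : ℕ) (s₁ s₂ s₃ s₄ : ℝ) (X : ℕ) : Finset (ℕ × ℕ) :=
  ((Icc 1 X) ×ˢ (Icc 1 X)).filter (fun p => s₁ * X < (p.1 : ℝ) ∧ (p.1 : ℝ) ≤ s₂ * X ∧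
    s₃ * X < (p.2 : ℝ) ∧ (p.2 : ℝ) ≤ s₄ * X ∧ p.1 ≡ r [MOD 2 * q * w] ∧ Squarefree (p.1 * p.2) ∧
    ∃ a : ℕ, 0 < a ∧ p.1 * p.2 = (2 * q * a) ^ 2 + 1 ∧ a ≡ v [MOD w])

open scoped Classical in
/-- the number of the integers `n = 2 q a ≤ X`, `a ≡ v mod w`, such that `n^2 + 1` is squarefree and
`n^2 + 1 = d d'` with `d, d' ≤ X`, with the pattern given by `i`, `j`, `T` -/
noncomputable def count (q w v m k i j : ℕ) [NeZero m] (T : Finset (ZMod m)ˣ) (X : ℕ) : ℕ :=
  ((range (X + 1)).filter (fun n : ℕ => (∃ a : ℕ, n = 2 * q * a ∧ a ≡ v [MOD w]) ∧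
    Squarefree (n ^ 2 + 1) ∧ ∃ d d' : ℕ, d ≤ X ∧ d' ≤ X ∧ d * d' = n ^ 2 + 1 ∧
      PairPattern m k i j T d d')).card

open scoped Classical in
/-- Let `q` be a prime, `m, k, w ≥ 1`, let `m` divide `2 q w`, let `z = (2 q v)^2 + 1` be prime to `m`, and
`l^2 ∤ z` for all primes `l` with `l^2 ∣ 2 q w`. Let `i`, `j` be integers and `T` a set of residue
classes modulo `m`, prime to `m`.

1. If some `(2 q a)^2 + 1 = d d'`, `a ≡ v mod w`, has `Ω(d) ≡ i`, `Ω(d') ≡ j mod k` and `T` is the set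
  of the classes prime to `m` which contain an odd number of the prime factors of `(2 q a)^2 + 1`, then
  `(i, j, T)` is admissible.

Let `(i, j, T)` be admissible and let `R` be the number of the admissible triples with
`0 ≤ i, j < k`.

2. For all windows, all `r` and almost all `X` the number of the elements of `pairs` with the pattern
  `(i, j, T)` is `1/R` times the number of the elements of `pairs`, up to `ε X`, for every `ε > 0`.
3. For every `ε > 0` and almost all `X` there are at least `X / (log X)^(log 2 + ε)` integers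
  `n = 2 q a ≤ X`, `a ≡ v mod w`, with `n^2 + 1` squarefree and with a factorisation `n^2 + 1 = d d'`,
  `d, d' ≤ X`, with the pattern `(i, j, T)`; for every `δ > 0` and all large `X` there are at least
  `X^(1-δ)` of them. -/
theorem result (q : ℕ) (hq : q.Prime) (m k w v : ℕ) [NeZero m] (hk : 1 ≤ k) (hw : 1 ≤ w)
    (hmq : m ∣ 2 * q * w) (hu : ((2 * q * v) ^ 2 + 1).Coprime m)
    (hwv : ∀ l : ℕ, l.Prime → l ^ 2 ∣ 2 * q * w → ¬ l ^ 2 ∣ (2 * q * v) ^ 2 + 1) (i j : ℕ)
    (T : Finset (ZMod m)ˣ) :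
    (∀ a d d' : ℕ, a ≡ v [MOD w] → d * d' = (2 * q * a) ^ 2 + 1 → PairPattern m k i j T d d' →
      Admissible m k ((2 * q * v) ^ 2 + 1) i j T) ∧
    (Admissible m k ((2 * q * v) ^ 2 + 1) i j T →
      (∀ (r : ℕ) (s₁ s₂ s₃ s₄ : ℝ), 0 ≤ s₁ → s₁ < s₂ → s₂ ≤ 1 → 0 ≤ s₃ → s₃ < s₄ → s₄ ≤ 1 →
        ∀ ε : ℝ, 0 < ε → LogNull (fun X => ε * X <
          |(((pairs q w v r s₁ s₂ s₃ s₄ X).filter
            (fun p => PairPattern m k i j T p.1 p.2)).card : ℝ) -
            1 / (triples m k ((2 * q * v) ^ 2 + 1) : ℝ) *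
              ((pairs q w v r s₁ s₂ s₃ s₄ X).card : ℝ)|)) ∧
      (∀ ε : ℝ, 0 < ε → LogNull (fun X : ℕ => (count q w v m k i j T X : ℝ) <
        (X : ℝ) / Real.log X ^ (Real.log 2 + ε))) ∧
      (∀ δ : ℝ, 0 < δ → ∃ X₀ : ℕ, ∀ X : ℕ, X₀ ≤ X →
        (X : ℝ) ^ (1 - δ) ≤ count q w v m k i j T X)) := by
  have h9 : (0, 1) ∈ ([(0, 1), (0, 2), (1, 1), (1, 2), (1, 3), (1, 5),
      (1, 11), (1, 17), (1, 41)] : List (ℕ × ℕ)) := by simp
  obtain ⟨f, χ, hF⟩ := Pool.Agent.W251.EG.fd9 0 1 h9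
  have hS := Pool.Agent.W251.EG.sps9 0 1 h9
  have hk0 : NeZero k := ⟨by omega⟩
  have hm1 : 1 ≤ m := Nat.one_le_iff_ne_zero.2 (NeZero.ne m)
  have hA1 := Pool.Agent.W251.EG.c_pos hF
  have hM : 1 ≤ 2 * q * w := Nat.mul_pos (Nat.mul_pos two_pos hq.pos) hw
  have hM2 : 2 * q ≠ 0 := (Nat.mul_pos two_pos hq.pos).ne'
  have hqu : ∀ l : ℕ, l.Prime → l ^ 2 ∣ 2 * q * w →
      ¬ l ^ 2 ∣ (2 * q * v) ^ 2 + 0 * (2 * q * v) + 1 := by
    intro l hl h1 h2
    rw [zero_mul, add_zero] at h2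
    exact hwv l hl h1 h2
  have hmod : ∀ a : ℕ, 2 * q * a ≡ 2 * q * v [MOD 2 * q * w] ↔ a ≡ v [MOD w] := by
    intro a
    constructor
    · exact fun h => Nat.ModEq.mul_left_cancel' hM2 h
    · exact fun h => Nat.ModEq.mul_left' _ h
  have hex : ∀ n : ℕ, n ≡ 2 * q * v [MOD 2 * q * w] ↔ ∃ a : ℕ, n = 2 * q * a ∧ a ≡ v [MOD w] := by
    intro n
    constructor
    · intro h
      have h1 : 2 * q ∣ n := by
        have h2 : n ≡ 2 * q * v [MOD 2 * q] := h.of_mul_right w
        exact (h2.dvd_iff (dvd_refl _)).2 (dvd_mul_right _ _)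
      obtain ⟨a, rfl⟩ := h1
      exact ⟨a, rfl, (hmod a).1 h⟩
    · rintro ⟨a, rfl, h⟩
      exact (hmod a).2 h
  have hdisc : (0 : ℤ) ^ 2 - 4 * 1 * 1 = ((0 : ℕ) : ℤ) ^ 2 - 4 * ((1 : ℕ) : ℤ) := by norm_num
  have hqv : ∀ n : ℕ, Pool.Agent.W78.EG.qv (1 : ℤ) (0 : ℤ) (1 : ℤ) n = n ^ 2 + 1 := by
    intro n
    have h1 := Pool.Agent.V11296.CX.qv_cast hF one_pos hdisc n
    rw [one_mul, zero_mul, add_zero] at h1
    exact_mod_cast h1
  have hu' : (Pool.Agent.W78.EG.qv (1 : ℤ) (0 : ℤ) (1 : ℤ) (2 * q * v)).Coprime m := by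
    rw [hqv]
    exact hu
  have hN : ∀ b : ZMod m, Pool.Agent.V11296.CV.isN 0 1 m b ↔ IsNorm m b := by
    intro b
    unfold Pool.Agent.V11296.CV.isN IsNorm
    simp only [Nat.cast_zero, Nat.cast_one, zero_mul, one_mul, add_zero]
  have hAdm : ∀ (z x y : ℕ) (T' : Finset (ZMod m)ˣ),
      Pool.Agent.V11296.CQ.Admn 0 1 m k z (x + y) T' ↔ Admissible m k z x y T' := by
    intro z x y T'
    unfold Pool.Agent.V11296.CQ.Admn Admissible
    simp only [hN]
  refine ⟨fun a d d' ha hdd hp => ?_, fun hAd => ?_⟩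
  · have h1 := Pool.Agent.V11296.CX.nec_pair hF one_pos hdisc hmq hu' T ((hmod a).2 ha)
      (by rw [one_mul, zero_mul, add_zero]; exact_mod_cast hdd) hp.1 hp.2.1 hp.2.2
    rw [hqv] at h1
    exact (hAdm _ _ _ _).1 h1
  · have hAd' : Pool.Agent.V11296.CQ.Admn 0 1 m k
        (Pool.Agent.W78.EG.qv (1 : ℤ) (0 : ℤ) (1 : ℤ) (2 * q * v)) (i + j) T := by
      rw [hqv]
      exact (hAdm _ _ _ _).2 hAd
    have hg := Pool.Agent.V11296.CW.gpk 0 1 m k hm1
    have hal := Pool.Agent.V11296.CX.alf_pair hF hm1 hk one_pos hdisc hmq hu' T hAd'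
    have hcard := Pool.Agent.V11296.CX.card_AT (k := k) hF one_pos hdisc hM hmq hu'
    have hR : ((Pool.Agent.V11296.CX.AT 0 1 m k
        (Pool.Agent.W78.EG.qv (1 : ℤ) (0 : ℤ) (1 : ℤ) (2 * q * v))).card : ℝ) =
        (triples m k ((2 * q * v) ^ 2 + 1) : ℝ) := by
      rw [hqv]
      unfold triples Pool.Agent.V11296.CX.AT
      congr 2
      ext x
      rw [mem_filter, mem_filter]
      exact and_congr_right fun _ => hAdm _ _ _ _
    rw [hR] at hcard
    have hiff : ∀ d d' : ℕ, d ≠ 0 → d' ≠ 0 → (Pool.Agent.V11296.CW.H1 m k d +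
        Pool.Agent.V11296.CW.H2 m k d' =
        (((i : ZMod k), (j : ZMod k), ∑ b ∈ T, Pool.Agent.V11296.CV.ev m (b : ZMod m)) :
          Pool.Agent.V11296.CW.Bk m k) ↔ PairPattern m k i j T d d') :=
      fun d d' h1 h2 => Pool.Agent.V11296.CW.pair_iff d d' i j h1 h2 T
    obtain ⟨K, hKd⟩ : ∃ K : ℕ, K = Nat.card (Pool.Agent.V11296.CW.Dt 0 1 m
      (Pool.Agent.V11296.CW.E1 0 1 m k) ((1, 1, 0) : Pool.Agent.V11296.CW.Bk m k)) := ⟨_, rfl⟩
    have hK : 1 ≤ K := by
      rw [hKd]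
      exact Nat.card_pos
    have hWS : Pool.Agent.V11296.EB.WnS 0 1
        (fun p : ℕ × ℕ => Pool.Agent.V11296.CW.H1 m k p.1 + Pool.Agent.V11296.CW.H2 m k p.2)
        (((i : ZMod k), (j : ZMod k), ∑ b ∈ T, Pool.Agent.V11296.CV.ev m (b : ZMod m)) :
          Pool.Agent.V11296.CW.Bk m k) K (2 * q * w) (2 * q * v) := by
      intro r s₁ s₂ s₃ s₄ h1 h2 h3 h4 h5 h6 ε hε
      have hal2 : Pool.Agent.V11296.CW.Alp 0 1 m (2 * q * w) (2 * q * v) r
          (Pool.Agent.V11296.CW.E1 0 1 m k) ((1, 1, 0) : Pool.Agent.V11296.CW.Bk m k)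
          (Pool.Agent.V11296.CW.H1 m k) (Pool.Agent.V11296.CW.H2 m k)
          (((i : ZMod k), (j : ZMod k), ∑ b ∈ T, Pool.Agent.V11296.CV.ev m (b : ZMod m)) :
            Pool.Agent.V11296.CW.Bk m k) := by
        intro n d d' hn _ hde
        have hd : d ≠ 0 := fun h => by rw [h, Nat.zero_mul] at hde; omega
        have hd' : d' ≠ 0 := fun h => by rw [h, Nat.mul_zero] at hde; omega
        refine hal n d d' (by omega) (by omega) hn ?_
        have h9 : ((d * d' : ℕ) : ℤ) = ((n ^ 2 + 0 * n + 1 : ℕ) : ℤ) := by rw [hde]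
        push_cast at h9
        linarith
      have h7 := Pool.Agent.V11296.CX.nullSW (t := 0) hF hg _ (2 * q * w) (2 * q * v) r hM
        hal2 s₁ s₂ s₃ s₄ h1 h2 h3 h4 h5 h6 ε hε
      refine Pool.Agent.TH890.DV.LogNull.of_ev 0 (fun X _ hX => ?_) h7
      refine lt_of_lt_of_eq hX ?_
      congr 1
      refine sum_congr rfl fun p _ => ?_
      unfold Pool.Agent.V11296.EB.dvS Pool.Agent.V11296.CX.phiS Pool.Agent.V11296.CX.phi
        Pool.Agent.V11296.CY.dv
      rw [hKd]
    have hcnt : ∀ X : ℕ, Pool.Agent.V11296.EB.cfS 0 1 (2 * q * w) (2 * q * v)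
        (fun p : ℕ × ℕ => Pool.Agent.V11296.CW.H1 m k p.1 + Pool.Agent.V11296.CW.H2 m k p.2)
        (((i : ZMod k), (j : ZMod k), ∑ b ∈ T, Pool.Agent.V11296.CV.ev m (b : ZMod m)) :
          Pool.Agent.V11296.CW.Bk m k) X = count q w v m k i j T X := by
      intro X
      unfold Pool.Agent.V11296.EB.cfS count
      congr 1
      refine filter_congr fun n _ => ?_
      simp only [zero_mul, add_zero]
      rw [hex]
      have hne : ∀ d d' : ℕ, d * d' = n ^ 2 + 1 → d ≠ 0 ∧ d' ≠ 0 := by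
        intro d d' h
        have h1 : d * d' ≠ 0 := by rw [h]; omega
        exact ⟨left_ne_zero_of_mul h1, right_ne_zero_of_mul h1⟩
      constructor
      · rintro ⟨⟨h1, h2⟩, d, d', h3, h4, h5, h6⟩
        exact ⟨h1, h2, d, d', h3, h4, h5, (hiff d d' (hne d d' h5).1 (hne d d' h5).2).1 h6⟩
      · rintro ⟨h1, h2, d, d', h4, h5, h6, h7⟩
        exact ⟨⟨h1, h2⟩, d, d', h4, h5, h6, (hiff d d' (hne d d' h6).1 (hne d d' h6).2).2 h7⟩
    have hKR : (K : ℝ) = (triples m k ((2 * q * v) ^ 2 + 1) : ℝ) := by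
      rw [hKd]
      exact hcard
    refine ⟨fun r s₁ s₂ s₃ s₄ h1 h2 h3 h4 h5 h6 ε hε => ?_, ?_, ?_⟩
    · have h7 := hWS r s₁ s₂ s₃ s₄ h1 h2 h3 h4 h5 h6 ε hε
      refine Pool.Agent.TH890.DV.LogNull.of_ev 0 (fun X _ hX => ?_) h7
      refine lt_of_lt_of_eq hX ?_
      congr 1
      have h8 : pairs q w v r s₁ s₂ s₃ s₄ X =
          (Pool.Agent.W78.EG.SW ((0 : ℕ) : ℤ) ((1 : ℕ) : ℤ) (2 * q * w) (2 * q * v) r
            s₁ s₂ s₃ s₄ X).filter (fun p => Squarefree (p.1 * p.2)) := by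
        unfold pairs
        ext p
        rw [mem_filter, mem_filter, Pool.Agent.W251.EG.mem_SWn, mem_product, mem_Icc, mem_Icc]
        constructor
        · rintro ⟨g1, g2, g3, g4, g5, g6, g7, a, g8, g9, g10⟩
          exact ⟨⟨g1, ⟨2 * q * a, by have := Nat.mul_pos (Nat.mul_pos two_pos hq.pos) g8; omega,
            by rw [g9, zero_mul, add_zero], (hmod a).2 g10, g6⟩, g2, g3, g4, g5⟩, g7⟩
        · rintro ⟨⟨g1, ⟨n, g8, g9, g10, g6⟩, g2, g3, g4, g5⟩, g7⟩
          obtain ⟨a, rfl, ha⟩ := (hex n).1 g10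
          have ha0 : 0 < a := by
            rcases Nat.eq_zero_or_pos a with h0 | h0
            · rw [h0] at g8
              simp at g8
            · exact h0
          exact ⟨g1, g2, g3, g4, g5, g6, g7, a, ha0, by rw [g9, zero_mul, add_zero], ha⟩
      have h10 : (pairs q w v r s₁ s₂ s₃ s₄ X).filter (fun p => PairPattern m k i j T p.1 p.2) =
          (pairs q w v r s₁ s₂ s₃ s₄ X).filter (fun p => Pool.Agent.V11296.CW.H1 m k p.1 +
            Pool.Agent.V11296.CW.H2 m k p.2 =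
            (((i : ZMod k), (j : ZMod k), ∑ b ∈ T, Pool.Agent.V11296.CV.ev m (b : ZMod m)) :
              Pool.Agent.V11296.CW.Bk m k)) := by
        refine filter_congr fun p hp => ?_
        unfold pairs at hp
        rw [mem_filter, mem_product, mem_Icc, mem_Icc] at hp
        exact (hiff p.1 p.2 (by omega) (by omega)).symm
      rw [h10, h8]
      unfold Pool.Agent.V11296.EB.dvS Pool.Agent.V11296.CY.dv
      rw [← sum_filter, sum_sub_distrib, sum_const, nsmul_eq_mul, mul_comm (_ : ℝ), card_filter,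
        hKR]
      push_cast
      refine congrArg₂ (fun x y : ℝ => x - y) (sum_congr rfl fun p _ => ?_) rfl
      congr!
    · intro ε hε
      have h := Pool.Agent.V11296.EB.cntS hF hS hM hqu hK hWS ε hε
      refine Pool.Agent.TH890.DV.LogNull.of_ev 0 (fun X _ hX => ?_) h
      rw [hcnt]
      exact hX
    · intro δ hδ
      obtain ⟨N₀, hN₀⟩ := Pool.Agent.V11296.EB.cntSAll hF hS hM hqu hK hWS δ hδ
      refine ⟨N₀, fun X hX => ?_⟩
      have h := hN₀ X hX
      rw [hcnt] at h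
      exact h

end Pool.Agent.Results.MP_4b1228_nt.SquarefreeClassPatterns
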