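import Pool.Agent.V11296.EB2

/-!
The squarefree values of `(2 q m)^2 + 1`, `q` a prime (the family of Ankeny, Chowla and Hasse), `m` in an
arithmetic progression: the joint distribution of the numbers of the prime factors modulo `k` and of
sums over the prime factors `p` of `(2 q m)^2 + 1` of a function `e(p, n)`, `n = 2 q m`, which depends, in
an arbitrary way, on `p` and on the root `n mod p` of `x^2 + 1` modulo `p`.

The starting file `SquarefreeResidues` of this problem has the numbers of the prime factors modulo `k`,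
with the exponent `2 log 2` in the place of `log 2`. The starting files also have the bilinear estimate
`W251.EG.mainyG`, the bound `W251.EG.tailc` for the squares of large primes, the lower bound
`W251.EG.sps9` for the number of the squarefree values and the passage from the pairs to the integers
`TH890.DV.cnt_core`. Our `RootDependentFunctions` (problem MP_892e4c_nt) has all values of quadratic
polynomials.
-/

set_option autoImplicit false

namespace Pool.Agent.Results.MP_4b1228_nt.SquarefreeRootFunctions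

open Finset Filter

open scoped Classical in
/-- the set of the positive integers `X` with `P X` has logarithmic density `0` -/
def LogNull (P : ℕ → Prop) : Prop :=
  Tendsto (fun Z : ℕ => (∑ X ∈ (Icc 1 Z).filter P, 1 / (X : ℝ)) / Real.log Z) atTop (nhds 0)

/-- `e(p, n)` depends only on `n mod p`, and its values at two different roots modulo the prime `p` of
`x^2 + 1` have the sum `τ` -/
structure RootFunction {G : Type} [AddCommGroup G] (e : ℕ → ℕ → G) (τ : G) : Prop where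
  per : ∀ p n n' : ℕ, n ≡ n' [MOD p] → e p n = e p n'
  sum : ∀ p n n' : ℕ, p.Prime → p ∣ n ^ 2 + 1 → p ∣ n' ^ 2 + 1 → ¬ n ≡ n' [MOD p] →
    e p n + e p n' = τ

open scoped Classical in
/-- for every proper subgroup `S` of `G`, the primes `p` with two different roots `n`, `n'` modulo `p`
of `x^2 + 1` with `e(p, n) - e(p, n') ∈ S` have density `0` among the primes -/
def Generic {G : Type} [AddCommGroup G] (e : ℕ → ℕ → G) : Prop :=
  ∀ S : AddSubgroup G, S ≠ ⊤ → ∀ ε : ℝ, 0 < ε → ∃ N₀ : ℕ, ∀ N : ℕ, N₀ ≤ N →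
    ∑ p ∈ (Icc 1 N).filter (fun p => p.Prime ∧ ∃ n n' : ℕ, p ∣ n ^ 2 + 1 ∧ p ∣ n' ^ 2 + 1 ∧
      ¬ n ≡ n' [MOD p] ∧ e p n - e p n' ∈ S), Real.log p ≤ ε * N

/-- the sum of `e(p, n)` over the prime factors `p` of `n^2 + 1`, with multiplicity -/
def total {G : Type} [AddCommGroup G] (e : ℕ → ℕ → G) (n : ℕ) : G :=
  ((n ^ 2 + 1).primeFactorsList.map (fun p => e p n)).sum

/-- the number of the prime factors of `n`, with multiplicity -/
def Omega (n : ℕ) : ℕ := n.primeFactorsList.length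

open scoped Classical in
/-- the pairs `(d, d')` of positive integers with `s₁ X < d ≤ s₂ X`, `s₃ X < d' ≤ s₄ X`,
`d ≡ r mod 2 q w` and `d d' = (2 q m)^2 + 1` squarefree for some `m > 0` with `m ≡ v mod w` and
`Q m d d'` -/
noncomputable def pairs (q w v r : ℕ) (s₁ s₂ s₃ s₄ : ℝ) (Q : ℕ → ℕ → ℕ → Prop) (X : ℕ) :
    Finset (ℕ × ℕ) :=
  ((Icc 1 X) ×ˢ (Icc 1 X)).filter (fun p => s₁ * X < (p.1 : ℝ) ∧ (p.1 : ℝ) ≤ s₂ * X ∧
    s₃ * X < (p.2 : ℝ) ∧ (p.2 : ℝ) ≤ s₄ * X ∧ p.1 ≡ r [MOD 2 * q * w] ∧ Squarefree (p.1 * p.2) ∧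
    ∃ m : ℕ, 0 < m ∧ p.1 * p.2 = (2 * q * m) ^ 2 + 1 ∧ m ≡ v [MOD w] ∧ Q m p.1 p.2)

open scoped Classical in
/-- the number of the integers `n = 2 q m ≤ X`, `m ≡ v mod w`, such that `n^2 + 1` is squarefree,
`total e n = g`, and `n^2 + 1 = d d'` with `d, d' ≤ X`, `Ω(d) ≡ i`, `Ω(d') ≡ j mod k` -/
noncomputable def count {G : Type} [AddCommGroup G] (e : ℕ → ℕ → G) (q w v k i j : ℕ) (g : G)
    (X : ℕ) : ℕ :=
  ((range (X + 1)).filter (fun n : ℕ => (∃ m : ℕ, n = 2 * q * m ∧ m ≡ v [MOD w]) ∧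
    Squarefree (n ^ 2 + 1) ∧ total e n = g ∧ ∃ d d' : ℕ, d ≤ X ∧ d' ≤ X ∧ d * d' = n ^ 2 + 1 ∧
      Omega d ≡ i [MOD k] ∧ Omega d' ≡ j [MOD k])).card

open scoped Classical in
/-- Let `q` be a prime. Let `G` be a finite abelian group, `τ` in `G`, and for every prime `p` and
every residue class `n mod p` let `e(p, n)` in `G` be given, such that `e(p, n) + e(p, n') = τ` for the
two different roots `n`, `n'` of `x^2 + 1` modulo `p`. Suppose that for every proper subgroup `S` of `G`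
the primes with `e(p, n) - e(p, n') ∈ S` have density `0`. Let `Θ(n)` be the sum of `e(p, n)` over the
prime factors `p` of `n^2 + 1`. Let `k, w ≥ 1` and let `l^2 ∤ (2 q v)^2 + 1` for all primes `l` with
`l^2 ∣ 2 q w`.

1. At least `c₁ X` pairs of integers `d, d' ≤ X` have `d d' = (2 q m)^2 + 1` squarefree with
  `m ≡ v mod w`, for some `c₁ > 0` and all large `X`.

2. For all `i`, `j`, `r`, all `g` in `G` and all windows, and for all `X` outside a set of logarithmic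
  density `0`: among the pairs `(d, d')` with `d d' = (2 q m)^2 + 1` squarefree, `m ≡ v mod w`,
  `d ≡ r mod 2 q w`, `s₁ X < d ≤ s₂ X`, `s₃ X < d' ≤ s₄ X`, the number of those with `Ω(d) ≡ i`,
  `Ω(d') ≡ j mod k` and `Θ(2 q m) = g` is `1 / (k^2 |G|)` times the number of all, up to `ε X`.

3. For all `i`, `j`, `g` and every `ε > 0`, outside a set of `X` of logarithmic density `0`, there are
  at least `X / (log X)^(log 2 + ε)` integers `n = 2 q m ≤ X`, `m ≡ v mod w`, with `n^2 + 1` squarefree,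
  `Θ(n) = g` and with a factorisation `n^2 + 1 = d d'`, `d, d' ≤ X`, `Ω(d) ≡ i`, `Ω(d') ≡ j mod k`; and
  for every `δ > 0` and all large `X` there are at least `X^(1-δ)` of them. -/
theorem result (q : ℕ) (hq : q.Prime) (G : Type) [AddCommGroup G] [Finite G] (e : ℕ → ℕ → G) (τ : G)
    (he : RootFunction e τ) (hgen : Generic e) (k w v : ℕ) (hk : 1 ≤ k) (hw : 1 ≤ w)
    (hwv : ∀ l : ℕ, l.Prime → l ^ 2 ∣ 2 * q * w → ¬ l ^ 2 ∣ (2 * q * v) ^ 2 + 1) :
    (∃ c₁ : ℝ, 0 < c₁ ∧ ∃ X₀ : ℕ, ∀ X : ℕ, X₀ ≤ X → c₁ * X ≤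
      ((((Icc 1 X) ×ˢ (Icc 1 X)).filter (fun p : ℕ × ℕ => Squarefree (p.1 * p.2) ∧
        ∃ m : ℕ, p.1 * p.2 = (2 * q * m) ^ 2 + 1 ∧ m ≡ v [MOD w])).card : ℝ)) ∧
    (∀ (i j : ℕ) (g : G) (r : ℕ) (s₁ s₂ s₃ s₄ : ℝ), 0 ≤ s₁ → s₁ < s₂ → s₂ ≤ 1 → 0 ≤ s₃ →
      s₃ < s₄ → s₄ ≤ 1 → ∀ ε : ℝ, 0 < ε → LogNull (fun X => ε * X <
        |((pairs q w v r s₁ s₂ s₃ s₄ (fun m d d' => Omega d ≡ i [MOD k] ∧ Omega d' ≡ j [MOD k] ∧
            total e (2 * q * m) = g) X).card : ℝ) -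
          1 / ((k : ℝ) ^ 2 * Nat.card G) *
            ((pairs q w v r s₁ s₂ s₃ s₄ (fun _ _ _ => True) X).card : ℝ)|)) ∧
    (∀ (i j : ℕ) (g : G),
      (∀ ε : ℝ, 0 < ε → LogNull (fun X : ℕ => (count e q w v k i j g X : ℝ) <
        (X : ℝ) / Real.log X ^ (Real.log 2 + ε))) ∧
      (∀ δ : ℝ, 0 < δ → ∃ X₀ : ℕ, ∀ X : ℕ, X₀ ≤ X →
        (X : ℝ) ^ (1 - δ) ≤ count e q w v k i j g X)) := by
  have h9 : (0, 1) ∈ ([(0, 1), (0, 2), (1, 1), (1, 2), (1, 3), (1, 5),
      (1, 11), (1, 17), (1, 41)] : List (ℕ × ℕ)) := by simp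
  obtain ⟨f, χ, hF⟩ := Pool.Agent.W251.EG.fd9 0 1 h9
  have hS := Pool.Agent.W251.EG.sps9 0 1 h9
  have hR := Pool.Agent.W251.EG.hl9 0 1 h9 hF
  have ht := Pool.Agent.W251.EG.t_le hF
  have hk0 : NeZero k := ⟨by omega⟩
  have hM : 1 ≤ 2 * q * w := Nat.mul_pos (Nat.mul_pos two_pos hq.pos) hw
  have hM2 : 2 * q ≠ 0 := (Nat.mul_pos two_pos hq.pos).ne'
  have hK : 1 ≤ k ^ 2 * Nat.card G := Nat.mul_pos (Nat.one_le_pow _ _ hk) Nat.card_pos
  have hqu : ∀ l : ℕ, l.Prime → l ^ 2 ∣ 2 * q * w →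
      ¬ l ^ 2 ∣ (2 * q * v) ^ 2 + 0 * (2 * q * v) + 1 := by
    intro l hl h1 h2
    rw [zero_mul, add_zero] at h2
    exact hwv l hl h1 h2
  have hmod : ∀ m : ℕ, 2 * q * m ≡ 2 * q * v [MOD 2 * q * w] ↔ m ≡ v [MOD w] := by
    intro m
    constructor
    · exact fun h => Nat.ModEq.mul_left_cancel' hM2 h
    · exact fun h => Nat.ModEq.mul_left' _ h
  have hex : ∀ n : ℕ, n ≡ 2 * q * v [MOD 2 * q * w] ↔ ∃ m : ℕ, n = 2 * q * m ∧ m ≡ v [MOD w] := by
    intro n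
    constructor
    · intro h
      have h1 : 2 * q ∣ n := by
        have h2 : n ≡ 2 * q * v [MOD 2 * q] := h.of_mul_right w
        exact (h2.dvd_iff (dvd_refl _)).2 (dvd_mul_right _ _)
      obtain ⟨m, rfl⟩ := h1
      exact ⟨m, rfl, (hmod m).1 h⟩
    · rintro ⟨m, rfl, h⟩
      exact (hmod m).2 h
  have heV : Pool.Agent.V11296.EA.RV 0 1 f e τ := by
    refine ⟨he.per, fun l n n' hl _ h1 h2 h3 => he.sum l n n' hl ?_ ?_ h3⟩
    · rwa [zero_mul, add_zero] at h1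
    · rwa [zero_mul, add_zero] at h2
  have hgV : Pool.Agent.V11296.EA.GenV 0 1 e := by
    intro S hS' ε hε
    obtain ⟨N₀, hN₀⟩ := hgen S hS' ε hε
    refine ⟨N₀, fun N hN => le_of_eq_of_le ?_ (hN₀ N hN)⟩
    unfold Pool.Agent.V11296.EA.bad
    refine sum_congr ?_ fun _ _ => rfl
    ext p
    simp only [mem_filter, zero_mul, add_zero]
  have hwV : ∀ (x : (ZMod k × ZMod k) × G) (q' u' : ℕ), 1 ≤ q' →
      Pool.Agent.V11296.CY.Wn 0 1 (Pool.Agent.V11296.EA.HT 1 k e) x (k ^ 2 * Nat.card G) q' u' :=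
    fun x q' u' hq' => Pool.Agent.V11296.EA.wn_V hF hR heV hgV k x hq' u'
  have hHT : ∀ d d' n : ℕ, d * d' = n ^ 2 + 1 → Pool.Agent.V11296.EA.HT 1 k e (d, d') =
      (((Omega d : ZMod k), (Omega d' : ZMod k)), total e n) := by
    intro d d' n hdd
    unfold Pool.Agent.V11296.EA.HT
    rw [Pool.Agent.V11296.CY.nn_eq (p := (d, d')) ht (n := n)
      (by rw [zero_mul, add_zero]; exact hdd)]
    dsimp only
    rw [hdd]
    rfl
  have hiff : ∀ (d d' n : ℕ), d * d' = n ^ 2 + 1 → ∀ (i j : ℕ) (g : G),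
      (Pool.Agent.V11296.EA.HT 1 k e (d, d') = (((i : ZMod k), (j : ZMod k)), g) ↔
        Omega d ≡ i [MOD k] ∧ Omega d' ≡ j [MOD k] ∧ total e n = g) := by
    intro d d' n hdd i j g
    rw [hHT d d' n hdd, ← ZMod.natCast_eq_natCast_iff, ← ZMod.natCast_eq_natCast_iff]
    constructor
    · intro h1
      exact ⟨congrArg (fun x => x.1.1) h1, congrArg (fun x => x.1.2) h1, congrArg Prod.snd h1⟩
    · rintro ⟨h1, h2, h3⟩
      rw [h1, h2, h3]
  refine ⟨?_, fun i j g r s₁ s₂ s₃ s₄ h1 h2 h3 h4 h5 h6 ε hε => ?_, fun i j g => ?_⟩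
  · obtain ⟨c₁, hc₁, X₀, h1⟩ := Pool.Agent.V11296.EB.lowPS hS hM (2 * q * v) hqu
    refine ⟨c₁, hc₁, X₀, fun X hX => (h1 X hX).trans (Nat.cast_le.2 (card_le_card fun p hp => ?_))⟩
    rw [mem_filter, Pool.Agent.V11296.CY.mem_PPn] at hp
    obtain ⟨⟨g1, g2, g3, g4, n, g5, g6⟩, g7⟩ := hp
    rw [mem_filter, mem_product, mem_Icc, mem_Icc]
    obtain ⟨m, rfl, hm⟩ := (hex n).1 g6
    exact ⟨⟨⟨g1, g2⟩, g3, g4⟩, g7, m, by rw [g5, zero_mul, add_zero], hm⟩
  · have h7 := Pool.Agent.V11296.EB.wnS_of hF (hwV (((i : ZMod k), (j : ZMod k)), g)) hM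
      (2 * q * v) r s₁ s₂ s₃ s₄ h1 h2 h3 h4 h5 h6 ε hε
    refine Pool.Agent.TH890.DV.LogNull.of_ev 0 (fun X _ hX => ?_) h7
    refine lt_of_lt_of_eq hX ?_
    congr 1
    have h8 : pairs q w v r s₁ s₂ s₃ s₄ (fun _ _ _ => True) X =
        (Pool.Agent.W78.EG.SW ((0 : ℕ) : ℤ) ((1 : ℕ) : ℤ) (2 * q * w) (2 * q * v) r
          s₁ s₂ s₃ s₄ X).filter (fun p => Squarefree (p.1 * p.2)) := by
      unfold pairs
      ext p
      rw [mem_filter, mem_filter, Pool.Agent.W251.EG.mem_SWn, mem_product, mem_Icc, mem_Icc]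
      constructor
      · rintro ⟨g1, g2, g3, g4, g5, g6, g7, m, g8, g9, g10, _⟩
        exact ⟨⟨g1, ⟨2 * q * m, by have := Nat.mul_pos (Nat.mul_pos two_pos hq.pos) g8; omega,
          by rw [g9, zero_mul, add_zero], (hmod m).2 g10, g6⟩, g2, g3, g4, g5⟩, g7⟩
      · rintro ⟨⟨g1, ⟨n, g8, g9, g10, g6⟩, g2, g3, g4, g5⟩, g7⟩
        obtain ⟨m, rfl, hm⟩ := (hex n).1 g10
        have hm0 : 0 < m := by
          rcases Nat.eq_zero_or_pos m with h0 | h0
          · rw [h0] at g8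
            simp at g8
          · exact h0
        exact ⟨g1, g2, g3, g4, g5, g6, g7, m, hm0, by rw [g9, zero_mul, add_zero], hm, trivial⟩
    have h9 : pairs q w v r s₁ s₂ s₃ s₄ (fun m d d' => Omega d ≡ i [MOD k] ∧
        Omega d' ≡ j [MOD k] ∧ total e (2 * q * m) = g) X =
        (pairs q w v r s₁ s₂ s₃ s₄ (fun _ _ _ => True) X).filter (fun p =>
          Pool.Agent.V11296.EA.HT 1 k e p = (((i : ZMod k), (j : ZMod k)), g)) := by
      unfold pairs
      ext p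
      rw [mem_filter, mem_filter, mem_filter]
      constructor
      · rintro ⟨g1, g2, g3, g4, g5, g6, g7, m, g8, g9, g10, g11⟩
        exact ⟨⟨g1, g2, g3, g4, g5, g6, g7, m, g8, g9, g10, trivial⟩,
          (hiff p.1 p.2 (2 * q * m) g9 i j g).2 g11⟩
      · rintro ⟨⟨g1, g2, g3, g4, g5, g6, g7, m, g8, g9, g10, _⟩, g11⟩
        exact ⟨g1, g2, g3, g4, g5, g6, g7, m, g8, g9, g10,
          (hiff p.1 p.2 (2 * q * m) g9 i j g).1 g11⟩
    rw [h9, h8]
    unfold Pool.Agent.V11296.EB.dvS Pool.Agent.V11296.CY.dv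
    rw [← sum_filter, sum_sub_distrib, sum_const, nsmul_eq_mul, mul_comm (_ : ℝ), card_filter]
    push_cast
    refine congrArg₂ (fun x y : ℝ => x - y) (sum_congr rfl fun p _ => ?_) rfl
    congr!
  · have hWS := Pool.Agent.V11296.EB.wnS_of hF (hwV (((i : ZMod k), (j : ZMod k)), g)) hM (2 * q * v)
    have hcnt : ∀ X : ℕ, Pool.Agent.V11296.EB.cfS 0 1 (2 * q * w) (2 * q * v)
        (Pool.Agent.V11296.EA.HT 1 k e) (((i : ZMod k), (j : ZMod k)), g) X =
        count e q w v k i j g X := by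
      intro X
      unfold Pool.Agent.V11296.EB.cfS count
      congr 1
      refine filter_congr fun n _ => ?_
      simp only [zero_mul, add_zero]
      rw [hex]
      constructor
      · rintro ⟨⟨h1, h2⟩, d, d', h3, h4, h5, h6⟩
        have h7 := (hiff d d' n h5 i j g).1 h6
        exact ⟨h1, h2, h7.2.2, d, d', h3, h4, h5, h7.1, h7.2.1⟩
      · rintro ⟨h1, h2, h3, d, d', h4, h5, h6, h7, h8⟩
        exact ⟨⟨h1, h2⟩, d, d', h4, h5, h6, (hiff d d' n h6 i j g).2 ⟨h7, h8, h3⟩⟩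
    constructor
    · intro ε hε
      have h := Pool.Agent.V11296.EB.cntS hF hS hM hqu hK hWS ε hε
      refine Pool.Agent.TH890.DV.LogNull.of_ev 0 (fun X _ hX => ?_) h
      rw [hcnt]
      exact hX
    · intro δ hδ
      obtain ⟨N₀, hN₀⟩ := Pool.Agent.V11296.EB.cntSAll hF hS hM hqu hK hWS δ hδ
      refine ⟨N₀, fun X hX => ?_⟩
      have h := hN₀ X hX
      rw [hcnt] at h
      exact h

end Pool.Agent.Results.MP_4b1228_nt.SquarefreeRootFunctions
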